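import Mathlib
import Pool.Agent.Q49.MR.Asm
import Pool.Agent.Q121.MR_TR
import Pool.Agent.Q96.MR_DIM
import Pool.Agent.Q96.MR_DUAL
import Pool.Agent.Q96.MR_IND
import Pool.Agent.Q96.MR_POLY
import Pool.Agent.Q130.MR_P2A
import Pool.Agent.Q154.MR_P2B
import Pool.Agent.Q154.MR_H
import Pool.Agent.Q182.MR_Q4
import Pool.Agent.Q192.MR_B0
import Pool.Agent.Q210.MR_B1
import Pool.Agent.Q210.MR_DET
import Pool.Agent.Q181.MR_RK
import Pool.Agent.Q186.MR.CNT
import Pool.Agent.Q186.MR.E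
import Pool.Agent.Q186.MR.G
import Pool.Agent.Q176.MR_CC
import Pool.Agent.Q94.MR_F
import Pool.Agent.Q259.MR_COD

/-!
# MP_5d0678_co: the MRD criterion for the codes `C_{δ,s}` in dimension 8, all odd `q`

`L/K` is the extension of degree 8 of a finite field `K` with `q` elements, `q` odd.  The code
`codeC K L s δ` of the maps `x ↦ a x + b (x^(q^s) + δ x^(q^(4+s)))` is MRD if and only if the norm
`δ^(1+q⁴)` is `−1`.
-/

set_option autoImplicit false

namespace Pool.Agent.Results.MP_5d0678_co.MRDCriterion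

open Q49.MR Module

/-- The code `C_{δ,s}` over a finite field with an odd number `q` of elements, in dimension 8, with
`s` odd and `δ ≠ 0`, is maximum rank distance if and only if `δ^(1+q⁴) = −1`. -/
theorem result (K L : Type) [Field K] [Finite K] [Field L] [Algebra K L]
    (hq : Odd (Nat.card K)) (h8 : finrank K L = 8) (s : ℕ) (hs : Odd s) (δ : L) (hδ : δ ≠ 0) :
    IsMRD (codeC K L s δ) ↔ δ ^ (1 + Nat.card K ^ 4) = -1 := by
  have hTR : S_TR := Q121.MR_TR.tr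
  have hDIM : S_DIM := Q96.MR_DIM.dim b8
  have hDUAL : S_DUAL := Q96.MR_DUAL.dual b8
  have hIND : S_IND := Q96.MR_IND.ind b8
  have hP2A : S_P2A := Q130.MR_P2A.p2a Q96.MR_POLY.poly k2 fx b8 tau hDIM
  have hP2B : S_P2B := Q154.MR_P2B.p2b sq fx hDIM
  have hDET : S_DET := Q210.MR_DET.det hTR fx b8
  have hRK : S_RK := Q181.MR_RK.rk hTR fx hIND
  have hCC : S_CC := Q176.MR_CC.cc b8
  have hCNT : S_CNT := Pool.Agent.Q186.MR.cnt hTR hDIM b8
  have hBC : S_BC := Pool.Agent.Q186.MR.bc hTR hDIM b8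
  have hE : S_E := Pool.Agent.Q186.MR.eee hTR hIND hDUAL b8 hCC
  have hG : S_G := Pool.Agent.Q186.MR.ggg b8 hil fx hIND
  exact partD (partC (partB (partA Q182.MR_Q4.q4 hDET hRK hCNT hP2A hP2B hDIM) hCC hBC
    Q192.MR_B0.b0 Q210.MR_B1.b1 hE hDIM) Q94.MR_F.fff (Q154.MR_H.hhh b8) hG
    (Q259.MR_COD.cod tau hIND)) K L hq h8 s hs δ hδ

end Pool.Agent.Results.MP_5d0678_co.MRDCriterion
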